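import Pool.Agent.Helper52.SX.Goals
import Pool.Agent.Helper16.CS.PR1
import Pool.Agent.Helper79.CS.PR2
import Pool.Agent.Helper89.CS.PR3

/-!
# Packet SX-NUT (MP_34c247_lc): the numbers
-/

namespace Pool.Agent.Helper44.SX

open Pool.Agent.Helper65.CS Pool.Agent.Helper78.DT Pool.Agent.Helper52.SX
open Pool.Agent.Helper79.CS (pow_le_two_pow geom_tail basic)

/-- `x = w L (2 / 2^b) ≤ 2 w / L` -/
theorem x_le (w : ℕ) {L : ℕ} (hL : 1 ≤ L) :
    ((w * L : ℕ) : ℝ) * (2 / 2 ^ bb L) ≤ 2 * (w : ℝ) / L := by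
  have hb : (L : ℝ) ^ 2 ≤ 2 ^ bb L := by
    unfold bb
    have h1 : L < 2 ^ (Nat.log 2 L + 1) := Nat.lt_pow_succ_log_self (by norm_num) L
    rw [mul_comm 2, pow_mul]
    have h2 : (L : ℝ) ≤ 2 ^ (Nat.log 2 L + 1) := by exact_mod_cast h1.le
    exact pow_le_pow_left₀ (Nat.cast_nonneg _) h2 2
  have hL0 : (0 : ℝ) < L := by exact_mod_cast hL
  push_cast
  have h2 : (2 : ℝ) / 2 ^ bb L ≤ 2 / (L : ℝ) ^ 2 :=
    div_le_div_of_nonneg_left (by norm_num) (by positivity) hb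
  calc (w : ℝ) * L * (2 / 2 ^ bb L) ≤ (w : ℝ) * L * (2 / (L : ℝ) ^ 2) :=
        mul_le_mul_of_nonneg_left h2 (by positivity)
    _ = 2 * (w : ℝ) / L := by field_simp

/-- The number of the lists. -/
theorem r_le {r L e c1 : ℕ} (hL : c1 ^ (e + 1) ≤ L) (hL1 : 1 ≤ L)
    (h : r ^ (e + 1) ≤ L ^ e) : r ≤ L ∧ r * c1 ≤ L := by
  constructor
  · have h1 : r ^ (e + 1) ≤ L ^ (e + 1) := h.trans (Nat.pow_le_pow_right hL1 (Nat.le_succ e))
    exact (Nat.pow_le_pow_iff_left (Nat.succ_ne_zero e)).mp h1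
  · have h1 : (r * c1) ^ (e + 1) ≤ L ^ (e + 1) := by
      calc (r * c1) ^ (e + 1) = r ^ (e + 1) * c1 ^ (e + 1) := mul_pow _ _ _
        _ ≤ L ^ e * L := Nat.mul_le_mul h hL
        _ = L ^ (e + 1) := (pow_succ L e).symm
    exact (Nat.pow_le_pow_iff_left (Nat.succ_ne_zero e)).mp h1

/-- The loss. -/
theorem loss_le (c w e : ℕ) : ∃ L0 : ℕ, ∀ N r : ℕ, L0 ≤ lg N → r ^ (e + 1) ≤ lg N ^ e →
    lossT r (w * lg N) (bb (lg N)) (uu (lg N)) (c + 6) (MM N) N N ≤ 1 / (lg N : ℝ) ^ (c + 4) := by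
  obtain ⟨L1, hL1⟩ := pow_le_two_pow (c + 5)
  refine ⟨L1 + 8 * (16 * w) ^ (c + 6) + (2 * w) ^ 2 + 32 * w + (c + 6) ^ (e + 1) + 3,
    fun N r hN hr => ?_⟩
  set L := lg N with hLdef
  have hc1 : L1 ≤ L := by omega
  have hc2 : 8 * (16 * w) ^ (c + 6) ≤ L := by omega
  have hc3 : (2 * w) ^ 2 ≤ L := by omega
  have hc4 : 32 * w ≤ L := by omega
  have hc5 : (c + 6) ^ (e + 1) ≤ L := by omega
  have hL3 : 3 ≤ L := by omega
  have hL0 : (0 : ℝ) < L := by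
    have : 0 < L := by omega
    exact_mod_cast this
  obtain ⟨hrL, hrc⟩ := r_le hc5 (by omega) hr
  have hrR : (r : ℝ) ≤ L := by exact_mod_cast hrL
  obtain ⟨hN1, hN2⟩ := basic hL3
  rw [← hLdef] at hN1 hN2
  have hk := hL1 L hc1
  -- `L 2^(-L) ≤ 1 / (4 L^(c+4))`
  have hk' : (L : ℝ) * (1 / 2 ^ L) ≤ 1 / (4 * (L : ℝ) ^ (c + 4)) := by
    rw [mul_one_div, div_le_div_iff₀ (by positivity) (by positivity)]
    calc (L : ℝ) * (4 * (L : ℝ) ^ (c + 4)) = 4 * (L : ℝ) ^ (c + 5) := by ring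
      _ ≤ 1 * 2 ^ L := by rw [one_mul]; exact hk
  set x : ℝ := ((w * L : ℕ) : ℝ) * (2 / 2 ^ bb L) with hx
  have hx0 : 0 ≤ x := by positivity
  have hx1 : x ≤ 2 * (w : ℝ) / L := x_le w (by omega)
  have hN1R : (N : ℝ) ≤ 2 ^ L := by exact_mod_cast hN1.le
  -- first summand
  have hfirst : (N : ℝ) * x ^ uu L ≤ 1 / 2 ^ L := by
    set l := Nat.log 2 L with hl
    have hl1 : 0 < l := Nat.log_pos (by norm_num) (by omega)
    have h2l : 2 ^ l ≤ L := Nat.pow_log_le_self 2 (by omega)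
    have hu : 4 * L ≤ l * uu L := by
      unfold uu
      rw [← hl]
      have := Nat.lt_mul_div_succ (4 * L) hl1
      exact this.le
    have hx2 : x ^ 2 ≤ 1 / 2 ^ l := by
      have h1 : x ^ 2 ≤ (2 * (w : ℝ) / L) ^ 2 := pow_le_pow_left₀ hx0 hx1 2
      have h2 : (2 * (w : ℝ) / L) ^ 2 ≤ 1 / L := by
        rw [div_pow, div_le_div_iff₀ (by positivity) hL0]
        have h3 : ((2 * (w : ℝ)) ^ 2) ≤ L := by exact_mod_cast hc3
        nlinarith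
      have h3 : (1 : ℝ) / L ≤ 1 / 2 ^ l :=
        one_div_le_one_div_of_le (by positivity) (by exact_mod_cast h2l)
      linarith
    have hx3 : (x ^ uu L) ^ 2 ≤ (1 / 2 ^ (2 * L)) ^ 2 := by
      have h1 : (x ^ uu L) ^ 2 = (x ^ 2) ^ uu L := by
        rw [← pow_mul, ← pow_mul, mul_comm]
      rw [h1]
      calc (x ^ 2) ^ uu L ≤ (1 / 2 ^ l) ^ uu L := pow_le_pow_left₀ (by positivity) hx2 _
        _ = 1 / 2 ^ (l * uu L) := by rw [one_div_pow, ← pow_mul]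
        _ ≤ 1 / 2 ^ (4 * L) :=
          one_div_le_one_div_of_le (by positivity) (pow_le_pow_right₀ (by norm_num) hu)
        _ = (1 / 2 ^ (2 * L)) ^ 2 := by
          rw [one_div_pow, ← pow_mul]
          congr 2
          ring
    have hx4 : x ^ uu L ≤ 1 / 2 ^ (2 * L) :=
      (pow_le_pow_iff_left₀ (by positivity) (by positivity) (by norm_num)).mp hx3
    calc (N : ℝ) * x ^ uu L ≤ 2 ^ L * (1 / 2 ^ (2 * L)) :=
          mul_le_mul hN1R hx4 (by positivity) (by positivity)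
      _ = 1 / 2 ^ L := by
        rw [two_mul, pow_add]
        field_simp
  -- second summand
  have hsum0 : (0 : ℝ) ≤
      ∑ u ∈ Finset.Ico (c + 6) (c + 6 + uu L), (8 * ((w * L : ℕ) : ℝ) * (2 / 2 ^ bb L)) ^ u :=
    Finset.sum_nonneg fun u _ => by positivity
  have hsecond : (L : ℝ) *
      ∑ u ∈ Finset.Ico (c + 6) (c + 6 + uu L), (8 * ((w * L : ℕ) : ℝ) * (2 / 2 ^ bb L)) ^ u ≤
      1 / (4 * (L : ℝ) ^ (c + 4)) := by
    have e : 8 * ((w * L : ℕ) : ℝ) * (2 / 2 ^ bb L) = 8 * x := by rw [hx]; ring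
    rw [e]
    have hy : 8 * x ≤ 16 * (w : ℝ) / L := by
      have : 16 * (w : ℝ) / L = 8 * (2 * (w : ℝ) / L) := by ring
      rw [this]
      linarith
    have hy2 : 16 * (w : ℝ) / L ≤ 1 / 2 := by
      rw [div_le_div_iff₀ hL0 (by norm_num)]
      have h3 : 32 * (w : ℝ) ≤ L := by exact_mod_cast hc4
      linarith
    have h1 := geom_tail (8 * x) (by positivity) (hy.trans hy2) (c + 6) (uu L)
    have h2 : (8 * x) ^ (c + 6) ≤ (16 * (w : ℝ) / L) ^ (c + 6) :=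
      pow_le_pow_left₀ (by positivity) hy _
    have h3 : (L : ℝ) * (2 * (16 * (w : ℝ) / L) ^ (c + 6)) ≤ 1 / (4 * (L : ℝ) ^ (c + 4)) := by
      rw [div_pow, ← mul_div_assoc, ← mul_div_assoc,
        div_le_div_iff₀ (by positivity) (by positivity)]
      have h4 : 8 * (16 * (w : ℝ)) ^ (c + 6) ≤ L := by exact_mod_cast hc2
      have h6 : (0 : ℝ) ≤ (L : ℝ) ^ (c + 5) := by positivity
      calc (L : ℝ) * (2 * (16 * (w : ℝ)) ^ (c + 6)) * (4 * (L : ℝ) ^ (c + 4))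
          = (8 * (16 * (w : ℝ)) ^ (c + 6)) * (L : ℝ) ^ (c + 5) := by ring
        _ ≤ L * (L : ℝ) ^ (c + 5) := mul_le_mul_of_nonneg_right h4 h6
        _ = 1 * (L : ℝ) ^ (c + 6) := by ring
    refine le_trans (mul_le_mul_of_nonneg_left (h1.trans ?_) hL0.le) h3
    linarith
  -- third summand
  have hthird : (2 : ℝ) ^ (r * (c + 6)) * ((N : ℝ) / MM N) ≤ 1 / 2 ^ L := by
    have h1 : (2 : ℝ) ^ (19 * L) ≤ MM N := by
      unfold MM
      have : 2 ^ (19 * L) ≤ (4 * N + 4) ^ 19 := by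
        rw [mul_comm, pow_mul]
        exact Nat.pow_le_pow_left hN2 19
      exact_mod_cast this
    have h2 : (N : ℝ) / MM N ≤ 2 ^ L / 2 ^ (19 * L) :=
      div_le_div₀ (by positivity) hN1R (by positivity) h1
    calc (2 : ℝ) ^ (r * (c + 6)) * ((N : ℝ) / MM N)
        ≤ 2 ^ (r * (c + 6)) * (2 ^ L / 2 ^ (19 * L)) :=
          mul_le_mul_of_nonneg_left h2 (by positivity)
      _ ≤ 1 / 2 ^ L := by
        rw [← mul_div_assoc, div_le_div_iff₀ (by positivity) (by positivity), one_mul, ← pow_add,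
          ← pow_add]
        exact pow_le_pow_right₀ (by norm_num) (by omega)
  have hthird' : (2 : ℝ) ^ (r * (c + 6)) * ((N : ℝ) / MM N) ≤ (L : ℝ) * (1 / 2 ^ L) := by
    have h1 : (1 : ℝ) ≤ L := by
      have : 1 ≤ L := by omega
      exact_mod_cast this
    have h2 : (0 : ℝ) ≤ 1 / 2 ^ L := by positivity
    nlinarith
  have hf : (r : ℝ) * ((N : ℝ) * (((w * L : ℕ) : ℝ) * (2 / 2 ^ bb L)) ^ uu L) ≤
      (L : ℝ) * (1 / 2 ^ L) :=
    mul_le_mul hrR hfirst (by positivity) hL0.le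
  have hs : (r : ℝ) *
      ∑ u ∈ Finset.Ico (c + 6) (c + 6 + uu L), (8 * ((w * L : ℕ) : ℝ) * (2 / 2 ^ bb L)) ^ u ≤
      1 / (4 * (L : ℝ) ^ (c + 4)) :=
    (mul_le_mul_of_nonneg_right hrR hsum0).trans hsecond
  unfold lossT
  rw [mul_add]
  have hfinal : 1 / (4 * (L : ℝ) ^ (c + 4)) = 1 / 4 * (1 / (L : ℝ) ^ (c + 4)) := by
    field_simp
  have hpos : (0 : ℝ) ≤ 1 / (L : ℝ) ^ (c + 4) := by positivity
  linarith

/-- **NUT.** -/
theorem nut : NutStmt := by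
  intro c w e
  obtain ⟨A, hA⟩ := Pool.Agent.Helper16.CS.pr1 (c + 1)
  obtain ⟨B, hB⟩ := loss_le c w e
  obtain ⟨D, hD⟩ := Pool.Agent.Helper89.CS.pr3 c
  refine ⟨A + B + D, fun N r hN hr => ?_⟩
  obtain ⟨h1, h2⟩ := hA N (by omega)
  obtain ⟨h3, -⟩ := hD N (by omega)
  exact ⟨h1, h2, hB N r (by omega) hr, h3⟩

end Pool.Agent.Helper44.SX
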